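import Mathlib
import Pool.Agent.Helper17.SRDDefs
import Pool.Agent.Helper17.SRDProof

set_option autoImplicit false

namespace Pool.Agent.Results.MP_5e375b_co.StronglyRegularDesign

open Pool.Agent.Helper17.SRD

/-- There is a connected graph with exactly three distinct eigenvalues (on 156 vertices) whose
coherent closure is a strongly regular design, i.e. has type `[3 2; 3]`. -/
theorem result : ∃ (Γ : SimpleGraph (Fin 156)) (_ : DecidableRel Γ.Adj)
    (t : Setoid (Fin 156 × Fin 156)),
    IsG3 Γ ∧ IsCoherentClosure Γ t ∧ HasTypeSRD t :=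
  ⟨G, inferInstance, s, G_G3, s_closure, s_type⟩

end Pool.Agent.Results.MP_5e375b_co.StronglyRegularDesign
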